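import Pool.Agent.Helper30.EL.St
import Pool.Agent.Helper90.MT.A13a
import Pool.Agent.Helper2.DivisorSum

/-!
# Project EL: module BVE (the theorem of Bombieri and Vinogradov with divisor weights)
-/

set_option autoImplicit false

noncomputable section

namespace Pool.Agent.Helper8.EL

open Finset Filter Topology ArithmeticFunction
open Pool.Agent.Helper30.EL
open Pool.Agent.Helper15.AB (Th)
open Pool.Agent.Helper60.GP (II IsB JJ Err StBVc)

/-- number of divisors -/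
private def tau_BVE (q : ℕ) : ℝ := (q.divisors.card : ℝ)

private theorem tau_nn_BVE (q : ℕ) : 0 ≤ tau_BVE q := Nat.cast_nonneg _

/-! ### moments of the divisor function -/

private def g_BVE (k : ℕ) : ArithmeticFunction ℝ :=
  ⟨fun n => (n.divisors.card : ℝ) ^ k / n, by simp⟩

private theorem card_BVE (n : ℕ) : n.divisorsAntidiagonal.card = n.divisors.card := by
  rw [← Nat.map_div_right_divisors, card_map]

private theorem pow_le_BVE (k a b : ℕ) : ((a * b).divisors.card : ℝ) ^ k ≤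
    (a.divisors.card : ℝ) ^ k * (b.divisors.card : ℝ) ^ k := by
  rw [← mul_pow]
  refine pow_le_pow_left₀ (Nat.cast_nonneg _) ?_ k
  exact_mod_cast Pool.Agent.Helper2.card_divisors_mul_le a b

private theorem E_BVE (k N : ℕ) : ∑ n ∈ Ioc 0 N, (n.divisors.card : ℝ) ^ k / n ≤
    (1 + Real.log N) ^ (2 ^ k) := by
  induction k with
  | zero => simpa using Pool.Agent.Helper2.harmonic_sum_le N
  | succ k ih =>
    have h1 : ∀ n ∈ Ioc 0 N, (n.divisors.card : ℝ) ^ (k + 1) / n ≤ (g_BVE k * g_BVE k) n := by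
      intro n hn
      have hn0 : 0 < n := (mem_Ioc.1 hn).1
      rw [ArithmeticFunction.mul_apply]
      calc (n.divisors.card : ℝ) ^ (k + 1) / n
          = ∑ x ∈ n.divisorsAntidiagonal, (n.divisors.card : ℝ) ^ k / n := by
            rw [Finset.sum_const, nsmul_eq_mul, card_BVE, pow_succ]; ring
        _ ≤ ∑ x ∈ n.divisorsAntidiagonal, g_BVE k x.1 * g_BVE k x.2 := by
            refine Finset.sum_le_sum fun x hx => ?_
            obtain ⟨h1, h2⟩ := Nat.mem_divisorsAntidiagonal.1 hx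
            simp only [g_BVE, ArithmeticFunction.coe_mk]
            rw [div_mul_div_comm, ← h1, Nat.cast_mul]
            exact div_le_div_of_nonneg_right (pow_le_BVE k x.1 x.2) (by positivity)
    calc ∑ n ∈ Ioc 0 N, (n.divisors.card : ℝ) ^ (k + 1) / n
        ≤ ∑ n ∈ Ioc 0 N, (g_BVE k * g_BVE k) n := Finset.sum_le_sum h1
      _ = ∑ x ∈ Ioc 0 N ×ˢ Ioc 0 N with x.1 * x.2 ≤ N, g_BVE k x.1 * g_BVE k x.2 :=
          sum_Ioc_mul_eq_sum_prod_filter _ _ _
      _ ≤ ∑ x ∈ Ioc 0 N ×ˢ Ioc 0 N, g_BVE k x.1 * g_BVE k x.2 := by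
          refine Finset.sum_le_sum_of_subset_of_nonneg (filter_subset _ _) ?_
          intro x _ _
          simp only [g_BVE, ArithmeticFunction.coe_mk]
          positivity
      _ = (∑ n ∈ Ioc 0 N, (n.divisors.card : ℝ) ^ k / n) ^ 2 := by
          rw [sq, Finset.sum_mul_sum, Finset.sum_product]
          rfl
      _ ≤ ((1 + Real.log N) ^ (2 ^ k)) ^ 2 :=
          pow_le_pow_left₀ (Finset.sum_nonneg fun _ _ => by positivity) ih 2
      _ = (1 + Real.log N) ^ (2 ^ (k + 1)) := by rw [← pow_mul, pow_succ]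

private theorem cnt_BVE (N q : ℕ) (_hq : 1 ≤ q) (a : ℤ) :
    ((Icc 1 N).filter (fun n : ℕ => (q : ℤ) ∣ (n : ℤ) - a)).card ≤ N / q + 1 := by
  have h1 : N / q + 1 = (range (N / q + 1)).card := (Finset.card_range _).symm
  rw [h1]
  refine Finset.card_le_card_of_injOn (fun n => n / q) ?_ ?_
  · intro n hn
    have h2 := Finset.mem_Icc.1 (Finset.mem_filter.1 (Finset.mem_coe.1 hn)).1
    rw [Finset.mem_coe, Finset.mem_range]
    exact Nat.lt_succ_of_le (Nat.div_le_div_right h2.2)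
  · intro n hn m hm hnm
    have h2 := (Finset.mem_filter.1 (Finset.mem_coe.1 hn)).2
    have h3 := (Finset.mem_filter.1 (Finset.mem_coe.1 hm)).2
    have h4 := dvd_sub h2 h3
    have h5 : (n : ℤ) - a - ((m : ℤ) - a) = (n : ℤ) - m := by ring
    rw [h5] at h4
    have h6 : m ≡ n [MOD q] := (Nat.modEq_iff_dvd).2 h4
    have h7 := Nat.div_add_mod n q
    have h8 := Nat.div_add_mod m q
    have h9 : n / q = m / q := hnm
    have h10 : m % q = n % q := h6
    rw [← h7, ← h8, h9, h10]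

private theorem triv_BVE (ω : ℝ → ℝ) (hω : IsB ω) (x : ℝ) (hx : 1 ≤ x) (q : ℕ) (hq : 1 ≤ q)
    (hqx : (q : ℝ) ≤ x) (a : ℤ) :
    Err ω x q a ≤ 2 * x * Real.log (3 * x) * (tau_BVE q / q) := by
  have hq0 : (0 : ℝ) < q := by exact_mod_cast hq
  have hx0 : 0 < x := by linarith
  have hlog : 0 ≤ Real.log (3 * x) := Real.log_nonneg (by linarith)
  have hterm : ∀ n ∈ Icc 1 ⌊3 * x⌋₊, 0 ≤ Λ n * ω (Real.log (n / x)) ∧
      Λ n * ω (Real.log (n / x)) ≤ Real.log (3 * x) / 2 := by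
    intro n hn
    rw [Finset.mem_Icc] at hn
    have hn0 : (0 : ℝ) < n := by exact_mod_cast hn.1
    have h1 : (n : ℝ) ≤ 3 * x := (Nat.le_floor_iff (by positivity)).1 hn.2
    have h2 : Λ n ≤ Real.log (3 * x) := vonMangoldt_le_log.trans (Real.log_le_log hn0 h1)
    refine ⟨mul_nonneg vonMangoldt_nonneg (hω.nonneg _), ?_⟩
    calc Λ n * ω (Real.log (n / x)) ≤ Real.log (3 * x) * (1 / 2) :=
          mul_le_mul h2 (hω.le_half _) (hω.nonneg _) hlog
      _ = Real.log (3 * x) / 2 := by ring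
  have hτ : 1 ≤ tau_BVE q := by
    unfold tau_BVE
    have h1 : 0 < q.divisors.card := Finset.card_pos.2 ⟨1, Nat.one_mem_divisors.2 (by omega)⟩
    exact_mod_cast h1
  -- the sum over the class
  set S := ∑ n ∈ (II x).filter (fun n : ℕ => (q : ℤ) ∣ (n : ℤ) - a),
    Λ n * ω (Real.log (n / x)) with hS
  have hS0 : 0 ≤ S := Finset.sum_nonneg fun n hn => (hterm n (Finset.mem_filter.1 hn).1).1
  have hS1 : S ≤ 2 * x * Real.log (3 * x) * (tau_BVE q / q) := by
    have h1 : S ≤ (((II x).filter (fun n : ℕ => (q : ℤ) ∣ (n : ℤ) - a)).card : ℝ) *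
        (Real.log (3 * x) / 2) := by
      rw [← nsmul_eq_mul]
      exact Finset.sum_le_card_nsmul _ _ _ fun n hn => (hterm n (Finset.mem_filter.1 hn).1).2
    have h2 : (((II x).filter (fun n : ℕ => (q : ℤ) ∣ (n : ℤ) - a)).card : ℝ) ≤
        3 * x / q + 1 := by
      have h3 := cnt_BVE ⌊3 * x⌋₊ q hq a
      have h4 : (((II x).filter (fun n : ℕ => (q : ℤ) ∣ (n : ℤ) - a)).card : ℝ) ≤
          ((⌊3 * x⌋₊ / q : ℕ) : ℝ) + 1 := by exact_mod_cast h3
      have h5 : ((⌊3 * x⌋₊ / q : ℕ) : ℝ) ≤ 3 * x / q := by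
        refine Nat.cast_div_le.trans ?_
        exact div_le_div_of_nonneg_right (Nat.floor_le (by positivity)) hq0.le
      linarith
    have h3 : (1 : ℝ) ≤ x / q := by rw [le_div_iff₀ hq0]; linarith
    have h4 : 3 * x / q + 1 ≤ 4 * (x / q) := by
      have : 3 * x / q = 3 * (x / q) := by ring
      rw [this]; linarith
    calc S ≤ _ := h1
      _ ≤ (4 * (x / q)) * (Real.log (3 * x) / 2) :=
          mul_le_mul_of_nonneg_right (h2.trans h4) (by positivity)
      _ = 2 * x * Real.log (3 * x) * (1 / q) := by ring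
      _ ≤ 2 * x * Real.log (3 * x) * (tau_BVE q / q) := by
          refine mul_le_mul_of_nonneg_left ?_ (by positivity)
          exact div_le_div_of_nonneg_right hτ hq0.le
  -- the main term
  have hφ0 : (0 : ℝ) < Nat.totient q := by exact_mod_cast Nat.totient_pos.2 hq
  have hT0 : 0 ≤ Th ω x := Finset.sum_nonneg fun n hn => (hterm n hn).1
  have hT1 : Th ω x ≤ 3 * x * (Real.log (3 * x) / 2) := by
    have h1 : Th ω x ≤ ((Icc 1 ⌊3 * x⌋₊).card : ℝ) * (Real.log (3 * x) / 2) := by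
      rw [← nsmul_eq_mul]
      exact Finset.sum_le_card_nsmul _ _ _ fun n hn => (hterm n hn).2
    refine h1.trans (mul_le_mul_of_nonneg_right ?_ (by positivity))
    rw [Nat.card_Icc, Nat.add_sub_cancel]
    exact Nat.floor_le (by positivity)
  have hφ1 : 1 / (Nat.totient q : ℝ) ≤ tau_BVE q / q := by
    rw [div_le_div_iff₀ hφ0 hq0, one_mul]
    have h1 := Pool.Agent.Helper90.MT.a13a_tot q
    have h2 := Pool.Agent.Helper90.MT.a13a_div 1 q (by omega)
    have h3 : ∑ d ∈ q.divisors, ((1 : ℕ) : ℝ) ^ d.primeFactors.card = tau_BVE q := by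
      unfold tau_BVE
      simp
    rw [h3] at h2
    have h4 : ((1 : ℕ) : ℝ) + 1 = 2 := by norm_num
    rw [h4] at h2
    have h5 : (q : ℝ) ≤ 2 ^ q.primeFactors.card * q.totient := by exact_mod_cast h1
    exact h5.trans (mul_le_mul_of_nonneg_right h2 hφ0.le)
  have hT2 : Th ω x / (Nat.totient q : ℝ) ≤ 2 * x * Real.log (3 * x) * (tau_BVE q / q) := by
    have h1 : Th ω x / (Nat.totient q : ℝ) = Th ω x * (1 / (Nat.totient q : ℝ)) := by ring
    rw [h1]
    refine (mul_le_mul hT1 hφ1 (by positivity) (by positivity)).trans ?_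
    have h2 : 0 ≤ tau_BVE q / q := div_nonneg (tau_nn_BVE q) hq0.le
    refine mul_le_mul_of_nonneg_right ?_ h2
    have h3 : 0 ≤ x * Real.log (3 * x) := by positivity
    nlinarith
  have hT3 : 0 ≤ Th ω x / (Nat.totient q : ℝ) := by positivity
  unfold Pool.Agent.Helper60.GP.Err
  rw [abs_le]
  constructor
  · linarith
  · linarith

private theorem cs_BVE (S : Finset ℕ) (w E : ℕ → ℝ) (hE : ∀ i, 0 ≤ E i) :
    (∑ i ∈ S, w i * E i) ^ 2 ≤ (∑ i ∈ S, w i ^ 2 * E i) * ∑ i ∈ S, E i := by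
  have h := Finset.sum_mul_sq_le_sq_mul_sq S (fun i => w i * √(E i)) (fun i => √(E i))
  have e1 : ∑ i ∈ S, w i * √(E i) * √(E i) = ∑ i ∈ S, w i * E i :=
    Finset.sum_congr rfl fun i _ => by rw [mul_assoc, Real.mul_self_sqrt (hE i)]
  have e2 : ∑ i ∈ S, (w i * √(E i)) ^ 2 = ∑ i ∈ S, w i ^ 2 * E i :=
    Finset.sum_congr rfl fun i _ => by rw [mul_pow, Real.sq_sqrt (hE i)]
  have e3 : ∑ i ∈ S, √(E i) ^ 2 = ∑ i ∈ S, E i :=
    Finset.sum_congr rfl fun i _ => Real.sq_sqrt (hE i)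
  rwa [e1, e2, e3] at h


private theorem two_pow_le_BVE (d : ℕ) (hd : Squarefree d) :
    (2 : ℝ) ^ d.primeFactors.card ≤ tau_BVE (30 * d) := by
  have hd0 : d ≠ 0 := hd.ne_zero
  have h1 : d.divisors.card = 2 ^ d.primeFactors.card := by
    rw [Nat.card_divisors hd0, Finset.prod_congr rfl (g := fun _ => 2)]
    · rw [Finset.prod_const]
    · intro p hp
      rw [Nat.factorization_eq_one_of_squarefree hd (Nat.prime_of_mem_primeFactors hp)
        (Nat.dvd_of_mem_primeFactors hp)]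
  unfold tau_BVE
  have h2 : d.divisors.card ≤ (30 * d).divisors.card :=
    Finset.card_le_card (Nat.divisors_subset_of_dvd (by omega) (dvd_mul_left d 30))
  rw [h1] at h2
  exact_mod_cast h2

private theorem inj_BVE (X Q : ℕ) (hQ : 30 * X ≤ Q) (E : ℕ → ℝ) (hE : ∀ q, 0 ≤ E q) :
    ∑ d ∈ (Icc 1 X).filter Squarefree, (2 : ℝ) ^ d.primeFactors.card * E (30 * d) ≤
      ∑ q ∈ Icc 1 Q, tau_BVE q * E q := by
  have h1 : ∑ d ∈ (Icc 1 X).filter Squarefree, (2 : ℝ) ^ d.primeFactors.card * E (30 * d) ≤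
      ∑ d ∈ (Icc 1 X).filter Squarefree, tau_BVE (30 * d) * E (30 * d) := by
    refine Finset.sum_le_sum (fun d hd => ?_)
    exact mul_le_mul_of_nonneg_right (two_pow_le_BVE d (Finset.mem_filter.1 hd).2) (hE _)
  refine h1.trans ?_
  have hinj : Set.InjOn (fun d : ℕ => 30 * d) ((Icc 1 X).filter Squarefree : Finset ℕ) := by
    intro a _ b _ hab
    have : 30 * a = 30 * b := hab
    omega
  have h2 : ∑ d ∈ (Icc 1 X).filter Squarefree, tau_BVE (30 * d) * E (30 * d) =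
      ∑ q ∈ ((Icc 1 X).filter Squarefree).image (fun d : ℕ => 30 * d), tau_BVE q * E q := by
    rw [Finset.sum_image hinj]
  rw [h2]
  refine Finset.sum_le_sum_of_subset_of_nonneg ?_ (fun q _ _ => mul_nonneg (tau_nn_BVE q) (hE q))
  intro q hq
  obtain ⟨d, hd, rfl⟩ := Finset.mem_image.1 hq
  have h3 := Finset.mem_Icc.1 (Finset.mem_filter.1 hd).1
  rw [Finset.mem_Icc]
  omega

theorem hBVE (hB : StBVc) : StBVE := by
  intro ω hω A θ hθ0 hθ
  obtain ⟨θ', hθ1, hθ2⟩ := exists_between hθ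
  obtain ⟨x₀, hx₀⟩ := hB ω hω (2 * A + 11) θ' hθ2
  have hev : ∀ᶠ x : ℝ in atTop, (30 : ℝ) ≤ x ^ (θ' - θ) :=
    (tendsto_rpow_atTop (by linarith)).eventually_ge_atTop 30
  obtain ⟨x₁, hx₁⟩ := Filter.eventually_atTop.1 hev
  refine ⟨max (max x₀ x₁) (Real.exp 32), fun x hx => ?_⟩
  have hx1 := hx₀ x ((le_max_left _ _).trans ((le_max_left _ _).trans hx))
  have hx30 := hx₁ x ((le_max_right _ _).trans ((le_max_left _ _).trans hx))
  have hxe : Real.exp 32 ≤ x := (le_max_right _ _).trans hx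
  have hx0 : 0 < x := (Real.exp_pos 32).trans_le hxe
  have hL : 32 ≤ Real.log x := by
    rw [Real.le_log_iff_exp_le hx0]; exact hxe
  have hx1' : 1 ≤ x := by
    have : (1 : ℝ) ≤ Real.exp 32 := Real.one_le_exp (by norm_num)
    linarith
  intro b hb
  set L := Real.log x with hLd
  set Q := ⌊x ^ θ'⌋₊ with hQd
  have hE0 : ∀ q, 0 ≤ Err ω x q (b q) := fun q => abs_nonneg _
  have hBV1 := hx1 b hb
  have hXQ : 30 * ⌊x ^ θ⌋₊ ≤ Q := by
    rw [hQd]
    apply Nat.le_floor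
    push_cast
    have h1 : x ^ θ' = x ^ (θ' - θ) * x ^ θ := by
      rw [← Real.rpow_add hx0]; congr 1; ring
    rw [h1]
    exact mul_le_mul hx30 (Nat.floor_le (by positivity)) (Nat.cast_nonneg _) (by positivity)
  have h2 := inj_BVE ⌊x ^ θ⌋₊ Q hXQ (fun q => Err ω x q (b q)) hE0
  have h3 := cs_BVE (Icc 1 Q) (fun q => tau_BVE q) (fun q => Err ω x q (b q)) hE0
  have hQx : (Q : ℝ) ≤ x := by
    refine (Nat.floor_le (by positivity)).trans ?_
    calc x ^ θ' ≤ x ^ (1 : ℝ) :=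
          Real.rpow_le_rpow_of_exponent_le hx1' (by linarith)
      _ = x := Real.rpow_one x
  have hlog3 : Real.log (3 * x) ≤ 2 * L := by
    rw [Real.log_mul (by norm_num) hx0.ne']
    have h5 : Real.log 3 ≤ 3 := (Real.log_le_self (by norm_num))
    linarith
  have hlog30 : 0 ≤ Real.log (3 * x) := Real.log_nonneg (by linarith)
  have h4 : ∑ q ∈ Icc 1 Q, tau_BVE q ^ 2 * Err ω x q (b q) ≤
      2 * x * Real.log (3 * x) * (1 + Real.log Q) ^ 8 := by
    have h5 : ∀ q ∈ Icc 1 Q, tau_BVE q ^ 2 * Err ω x q (b q) ≤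
        2 * x * Real.log (3 * x) * (tau_BVE q ^ 3 / q) := by
      intro q hq
      rw [Finset.mem_Icc] at hq
      have h6 := triv_BVE ω hω x hx1' q hq.1 (le_trans (by exact_mod_cast hq.2) hQx) (b q)
      calc tau_BVE q ^ 2 * Err ω x q (b q) ≤
          tau_BVE q ^ 2 * (2 * x * Real.log (3 * x) * (tau_BVE q / q)) :=
            mul_le_mul_of_nonneg_left h6 (by positivity)
        _ = 2 * x * Real.log (3 * x) * (tau_BVE q ^ 3 / q) := by ring
    refine (Finset.sum_le_sum h5).trans ?_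
    rw [← Finset.mul_sum]
    refine mul_le_mul_of_nonneg_left ?_ (by positivity)
    have h6 := E_BVE 3 Q
    have h7 : (2 : ℕ) ^ 3 = 8 := by norm_num
    rw [h7] at h6
    exact h6
  have hlogQ : 1 + Real.log Q ≤ 2 * L := by
    have h5 : Real.log Q ≤ L := by
      by_cases hQ0 : Q = 0
      · rw [hQ0, Nat.cast_zero, Real.log_zero]; linarith
      · exact Real.log_le_log (by exact_mod_cast Nat.pos_of_ne_zero hQ0) hQx
    linarith
  have hlogQ0 : 0 ≤ 1 + Real.log Q := by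
    have := Real.log_natCast_nonneg Q
    linarith
  have h5 : ∑ q ∈ Icc 1 Q, tau_BVE q ^ 2 * Err ω x q (b q) ≤
      2 ^ 10 * x * L ^ 9 := by
    refine h4.trans ?_
    have h6 : (1 + Real.log Q) ^ 8 ≤ (2 * L) ^ 8 := pow_le_pow_left₀ hlogQ0 hlogQ 8
    calc 2 * x * Real.log (3 * x) * (1 + Real.log Q) ^ 8
        ≤ 2 * x * (2 * L) * (2 * L) ^ 8 := by
          refine mul_le_mul ?_ h6 (by positivity) (by positivity)
          exact mul_le_mul_of_nonneg_left hlog3 (by positivity)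
      _ = 2 ^ 10 * x * L ^ 9 := by ring
  have hL0 : 0 < L := by linarith
  have h6 : (∑ q ∈ Icc 1 Q, tau_BVE q * Err ω x q (b q)) ^ 2 ≤ (x / L ^ A) ^ 2 := by
    refine h3.trans ?_
    have h7 : 0 ≤ ∑ q ∈ Icc 1 Q, Err ω x q (b q) := Finset.sum_nonneg fun q _ => hE0 q
    refine (mul_le_mul h5 hBV1 h7 (by positivity)).trans ?_
    have h8 : (2 : ℝ) ^ 10 ≤ L ^ 2 := by
      calc (2 : ℝ) ^ 10 ≤ 32 ^ 2 := by norm_num
        _ ≤ L ^ 2 := pow_le_pow_left₀ (by norm_num) hL 2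
    have h9 : (x / L ^ A) ^ 2 = x ^ 2 / L ^ (2 * A) := by
      rw [div_pow, ← pow_mul, mul_comm A 2]
    rw [h9, pow_add]
    rw [mul_div_assoc', div_le_div_iff₀ (by positivity) (by positivity)]
    have h10 : (2 : ℝ) ^ 10 * L ^ 9 ≤ L ^ 11 := by
      calc (2 : ℝ) ^ 10 * L ^ 9 ≤ L ^ 2 * L ^ 9 := mul_le_mul_of_nonneg_right h8 (by positivity)
        _ = L ^ 11 := by ring
    calc 2 ^ 10 * x * L ^ 9 * x * L ^ (2 * A) = (x ^ 2 * L ^ (2 * A)) * (2 ^ 10 * L ^ 9) := by ring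
      _ ≤ (x ^ 2 * L ^ (2 * A)) * L ^ 11 := mul_le_mul_of_nonneg_left h10 (by positivity)
      _ = x ^ 2 * (L ^ (2 * A) * L ^ 11) := by ring
  have h7 : ∑ q ∈ Icc 1 Q, tau_BVE q * Err ω x q (b q) ≤ x / L ^ A :=
    le_of_sq_le_sq h6 (by positivity)
  exact h2.trans h7

end Pool.Agent.Helper8.EL
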